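import Pool.Agent.Helper42.PW.Goals1

/-!
# Project W (MP_fc6b1e_nt), packet N_GRP: the groups of local norms and of local `p`-th powers
-/

namespace Pool.Agent.Helper85.PW

open NumberField Polynomial Module IsDedekindDomain
open Pool.Agent.Helper42.PW

section cl

variable {p : ℕ} {F : Type} [Field F] [NumberField F] {W : HeightOneSpectrum (𝓞 F)}

theorem cl_one : Cl p W (1 : F) := by
  unfold Cl
  rw [sub_self, map_zero]
  exact ⟨zero_lt_one, zero_le⟩

theorem cl_val {u : F} (h : Cl p W u) : W.valuation F u = 1 := by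
  have h1 : u = 1 + (u - 1) := by ring
  rw [h1]
  exact Valuation.map_one_add_of_lt (W.valuation F) h.1

theorem cl_ne {u : F} (h : Cl p W u) : u ≠ 0 := by
  rintro rfl
  have := cl_val h
  rw [map_zero] at this
  exact zero_ne_one this

theorem cl_mul {u u' : F} (h : Cl p W u) (h' : Cl p W u') : Cl p W (u * u') := by
  have h1 : u * u' - 1 = u * (u' - 1) + (u - 1) := by ring
  have h2 : W.valuation F (u * (u' - 1)) = W.valuation F (u' - 1) := by
    rw [map_mul, cl_val h, one_mul]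
  unfold Cl
  rw [h1]
  constructor
  · exact Valuation.map_add_lt _ (by rw [h2]; exact h'.1) h.1
  · exact Valuation.map_add_le _ (by rw [h2]; exact h'.2) h.2

theorem cl_inv {u : F} (h : Cl p W u) : Cl p W u⁻¹ := by
  have h0 := cl_ne h
  have h1 : u⁻¹ - 1 = -(u⁻¹ * (u - 1)) := by field_simp; ring
  unfold Cl
  rw [h1, Valuation.map_neg, map_mul, map_inv₀, cl_val h, inv_one, one_mul]
  exact h

theorem pw_mul {α α' : F} (h : PwAt p W α) (h' : PwAt p W α') : PwAt p W (α * α') := by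
  obtain ⟨y, hy⟩ := h
  obtain ⟨y', hy'⟩ := h'
  refine ⟨y * y', ?_⟩
  have : α * α' * (y * y') ^ p = (α * y ^ p) * (α' * y' ^ p) := by rw [mul_pow]; ring
  rw [this]
  exact cl_mul hy hy'

theorem pw_inv {α : F} (h : PwAt p W α) : PwAt p W α⁻¹ := by
  obtain ⟨y, hy⟩ := h
  refine ⟨y⁻¹, ?_⟩
  rw [inv_pow, ← mul_inv]
  exact cl_inv hy

theorem pw_pow {y : F} (hy : y ≠ 0) : PwAt p W (y ^ p) := by
  refine ⟨y⁻¹, ?_⟩
  rw [← mul_pow, mul_inv_cancel₀ hy, one_pow]
  exact cl_one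

theorem pw_cl {u : F} (h : Cl p W u) : PwAt p W u :=
  ⟨1, by rwa [one_pow, mul_one]⟩

theorem pw_npow {α : F} (h : PwAt p W α) (n : ℕ) : PwAt p W (α ^ n) := by
  induction n with
  | zero => rw [pow_zero]; exact pw_cl cl_one
  | succ n ih => rw [pow_succ]; exact pw_mul ih h

end cl

section nm

variable {p : ℕ} [Fact p.Prime] {F : Type} [Field F] [NumberField F]

theorem val_npow (h : N_ALG) {α : F} (hα : α ≠ 0) (z : ℕ → F) (n : ℕ) :
    ∃ z' : ℕ → F, nf p α z ^ n = nf p α z' := by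
  induction n with
  | zero =>
    refine ⟨fun j ↦ if j = 0 then 1 else 0, ?_⟩
    rw [h.2.1 p F α 1, pow_zero, one_pow]
  | succ n ih =>
    obtain ⟨z', hz'⟩ := ih
    obtain ⟨z'', hz''⟩ := h.2.2.2.1 p F α hα z' z
    exact ⟨z'', by rw [pow_succ, hz', hz'']⟩

theorem val_inv (h : N_ALG) {α : F} (hα : α ≠ 0) (z : ℕ → F) (hz : nf p α z ≠ 0) :
    ∃ z' : ℕ → F, (nf p α z)⁻¹ = nf p α z' := by
  have hp : p.Prime := Fact.out
  obtain ⟨z1, h1⟩ := val_npow (p := p) h hα z (p - 1)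
  obtain ⟨z2, h2⟩ := h.2.2.2.1 p F α hα z1 fun j ↦ if j = 0 then (nf p α z)⁻¹ else 0
  refine ⟨z2, ?_⟩
  rw [← h2, ← h1, h.2.1 p F α]
  have h3 : p = (p - 1) + 1 := by have := hp.one_lt; omega
  generalize nf p α z = n at hz
  conv_rhs => rw [h3]
  simp only [Nat.add_sub_cancel]
  rw [inv_pow, pow_succ]
  field_simp

/-- One direction of the invariance. -/
theorem nm_dir (h : N_ALG) {W : HeightOneSpectrum (𝓞 F)} {α : F} (hα : α ≠ 0) {n : ℕ}
    (hn : n.Coprime p) (c x : F) (hx : NmAt p W (α ^ n * c ^ p) x) : NmAt p W α x := by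
  obtain ⟨z, hz⟩ := hx
  rw [h.2.2.1 p F (α ^ n) c z] at hz
  obtain ⟨z', hz'⟩ := h.2.2.2.2 p F α hα n hn fun j ↦ z j * c ^ j
  exact ⟨z', by rw [← hz']; exact hz⟩

/-- The inverse transformation. -/
theorem exists_back {α : F} (hα : α ≠ 0) {n : ℕ} (hn : n.Coprime p) {c : F} (hc : c ≠ 0) :
    ∃ (n' : ℕ) (d : F), n'.Coprime p ∧ d ≠ 0 ∧ (α ^ n * c ^ p) ^ n' * d ^ p = α := by
  have hp : p.Prime := Fact.out
  obtain ⟨n', -, hn'⟩ := Nat.exists_mul_mod_eq_one_of_coprime hn hp.one_lt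
  have h1 : n * n' = 1 + p * (n * n' / p) := by
    have := Nat.mod_add_div (n * n') p
    rw [hn'] at this
    exact this.symm
  set l := n * n' / p with hl
  have hd : α ^ l * c ^ n' ≠ 0 := mul_ne_zero (pow_ne_zero _ hα) (pow_ne_zero _ hc)
  refine ⟨n', (α ^ l * c ^ n')⁻¹, ?_, inv_ne_zero hd, ?_⟩
  · rw [Nat.coprime_comm, hp.coprime_iff_not_dvd]
    intro hdvd
    have h2 : n * n' % p = 0 := Nat.mod_eq_zero_of_dvd (Dvd.dvd.mul_left hdvd n)
    omega
  · have h3 : (α ^ n * c ^ p) ^ n' = α * (α ^ l * c ^ n') ^ p := by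
      rw [mul_pow, mul_pow, ← pow_mul, ← pow_mul, ← pow_mul, ← pow_mul, h1, pow_add, pow_one,
        mul_comm p l, mul_comm p n']
      ring
    rw [h3, mul_assoc, ← mul_pow, mul_inv_cancel₀ hd, one_pow, mul_one]

end nm

theorem n_grp (h : N_ALG) : Pool.Agent.Helper42.PW.N_GRP := by
  intro p hpF F _ _ W
  refine ⟨fun u u' => cl_mul, fun u => cl_inv, fun α α' => pw_mul, fun α => pw_inv,
    fun y hy => pw_pow hy, fun u => pw_cl, fun α hα => ⟨?_, ?_, ?_, ?_, ?_⟩⟩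
  · rintro x x' ⟨z, hz⟩ ⟨z', hz'⟩
    obtain ⟨z'', h2⟩ := h.2.2.2.1 p F α hα z z'
    refine ⟨z'', ?_⟩
    have : x * x' * nf p α z'' = (x * nf p α z) * (x' * nf p α z') := by rw [← h2]; ring
    rw [this]
    exact cl_mul hz hz'
  · rintro x ⟨z, hz⟩
    have hn : nf p α z ≠ 0 := by
      intro h0
      rw [h0, mul_zero] at hz
      exact cl_ne hz rfl
    obtain ⟨z', hz'⟩ := val_inv h hα z hn
    refine ⟨z', ?_⟩
    rw [← hz', ← mul_inv]
    exact cl_inv hz
  · intro y hy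
    refine ⟨fun j ↦ if j = 0 then y⁻¹ else 0, ?_⟩
    rw [h.2.1 p F α, ← mul_pow, mul_inv_cancel₀ hy, one_pow]
    exact cl_one
  · intro u hu
    refine ⟨fun j ↦ if j = 0 then 1 else 0, ?_⟩
    rw [h.2.1 p F α, one_pow, mul_one]
    exact hu
  · intro n c hn hc
    obtain ⟨n', d, hn', hd, hback⟩ := exists_back hα hn hc
    have hα' : α ^ n * c ^ p ≠ 0 := mul_ne_zero (pow_ne_zero _ hα) (pow_ne_zero _ hc)
    refine ⟨fun x => ⟨nm_dir h hα hn c x, fun hx => ?_⟩, fun hx => ?_, fun hx => ?_⟩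
    · apply nm_dir h hα' hn' d x
      rw [hback]
      exact hx
    · have := pw_mul (pw_npow hx n') (pw_pow (p := p) (W := W) hd)
      rwa [hback] at this
    · exact pw_mul (pw_npow hx n) (pw_pow hc)

end Pool.Agent.Helper85.PW
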